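import Mathlib

set_option autoImplicit false

namespace Pool.Agent.Results.MP_6800d9_co.CoverSquare

open Finset

/-- The greedy column algorithm.  The rectangles `w i × h i`, `i ∈ s`, have widths at most `m` and
heights at most one; the current column starts at the abscissa `x0` and is filled up to the
height `S` by rectangles of width at least `m`. -/
lemma columns {ι : Type*} [DecidableEq ι] (w h : ι → ℝ) (v : ℝ) (hv : 0 < v)
    (hh : ∀ i, 0 ≤ h i ∧ h i ≤ 1) (hw : ∀ i, 0 ≤ w i) :
    ∀ (n : ℕ) (s : Finset ι), s.card = n → ∀ (m S X x0 : ℝ), (∀ i ∈ s, w i ≤ m) → 0 ≤ S →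
      S < v → 0 ≤ m → 0 < X → m * (v - S) + X * (v + 1) ≤ ∑ i ∈ s, w i * h i →
      ∃ p : ι → ℝ × ℝ, ∀ x ∈ Set.Icc x0 (x0 + X), ∀ y ∈ Set.Icc 0 v,
        (y < S ∧ x ≤ x0 + m) ∨
        ∃ i ∈ s, x ∈ Set.Icc (p i).1 ((p i).1 + w i) ∧ y ∈ Set.Icc (p i).2 ((p i).2 + h i) := by
  intro n
  induction n with
  | zero =>
    intro s hs m S X x0 _ _ hSv hm hX hsum
    rw [Finset.card_eq_zero] at hs
    subst hs
    exfalso
    simp only [Finset.sum_empty] at hsum
    have h1 : 0 ≤ m * (v - S) := mul_nonneg hm (by linarith)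
    have h2 : 0 < X * (v + 1) := mul_pos hX (by linarith)
    linarith
  | succ n ih =>
    intro s hs m S X x0 hwm hS hSv hm hX hsum
    have hne : s.Nonempty := by
      rw [← Finset.card_pos, hs]; omega
    obtain ⟨i, his, hmax⟩ := Finset.exists_max_image s w hne
    have hcard : (s.erase i).card = n := by
      rw [Finset.card_erase_of_mem his, hs]; rfl
    have hsum' : ∑ j ∈ s.erase i, w j * h j + w i * h i = ∑ j ∈ s, w j * h j :=
      Finset.sum_erase_add s _ his
    have hwi : w i ≤ m := hwm i his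
    have hwi0 : 0 ≤ w i := hw i
    have hwm' : ∀ j ∈ s.erase i, w j ≤ w i := fun j hj => hmax j (Finset.mem_of_mem_erase hj)
    by_cases hc : S + h i < v
    · -- the column is not complete
      have hbound : w i * (v - (S + h i)) + X * (v + 1) ≤ ∑ j ∈ s.erase i, w j * h j := by
        have h1 : w i * (v - S) ≤ m * (v - S) := mul_le_mul_of_nonneg_right hwi (by linarith)
        nlinarith
      obtain ⟨p, hp⟩ := ih (s.erase i) hcard (w i) (S + h i) X x0 hwm'
        (add_nonneg hS (hh i).1) hc hwi0 hX hbound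
      refine ⟨Function.update p i (x0, S), ?_⟩
      intro x hx y hy
      rcases hp x hx y hy with ⟨h1, h2⟩ | ⟨j, hj, hxj, hyj⟩
      · by_cases hyS : y < S
        · left
          exact ⟨hyS, by linarith⟩
        · right
          push Not at hyS
          refine ⟨i, his, ?_, ?_⟩
          · rw [Function.update_self]
            exact ⟨hx.1, h2⟩
          · rw [Function.update_self]
            exact ⟨hyS, h1.le⟩
      · right
        refine ⟨j, Finset.mem_of_mem_erase hj, ?_, ?_⟩
        · rw [Function.update_of_ne (Finset.ne_of_mem_erase hj)]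
          exact hxj
        · rw [Function.update_of_ne (Finset.ne_of_mem_erase hj)]
          exact hyj
    · -- the column gets complete
      push Not at hc
      by_cases hX' : X ≤ w i
      · refine ⟨fun _ => (x0, S), ?_⟩
        intro x hx y hy
        by_cases hyS : y < S
        · left
          exact ⟨hyS, by linarith [hx.2]⟩
        · right
          push Not at hyS
          exact ⟨i, his, ⟨hx.1, by linarith [hx.2]⟩, ⟨hyS, by linarith [hy.2]⟩⟩
      · push Not at hX'
        have hbound : w i * (v - 0) + (X - w i) * (v + 1) ≤ ∑ j ∈ s.erase i, w j * h j := by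
          have h1 : 0 ≤ m * (v - S) := mul_nonneg hm (by linarith)
          have h2 : w i * h i ≤ w i * 1 := mul_le_mul_of_nonneg_left (hh i).2 hwi0
          nlinarith
        obtain ⟨p, hp⟩ := ih (s.erase i) hcard (w i) 0 (X - w i) (x0 + w i) hwm' le_rfl hv hwi0
          (by linarith) hbound
        refine ⟨Function.update p i (x0, S), ?_⟩
        intro x hx y hy
        by_cases hxw : x ≤ x0 + w i
        · by_cases hyS : y < S
          · left
            exact ⟨hyS, by linarith⟩
          · right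
            push Not at hyS
            refine ⟨i, his, ?_, ?_⟩
            · rw [Function.update_self]
              exact ⟨hx.1, hxw⟩
            · rw [Function.update_self]
              exact ⟨hyS, by linarith [hy.2]⟩
        · push Not at hxw
          rcases hp x ⟨hxw.le, by linarith [hx.2]⟩ y hy with ⟨h1, _⟩ | ⟨j, hj, hxj, hyj⟩
          · exact absurd h1 (not_lt.mpr hy.1)
          · right
            refine ⟨j, Finset.mem_of_mem_erase hj, ?_, ?_⟩
            · rw [Function.update_of_ne (Finset.ne_of_mem_erase hj)]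
              exact hxj
            · rw [Function.update_of_ne (Finset.ne_of_mem_erase hj)]
              exact hyj

/-- The case in which some rectangle has width one. -/
lemma of_width {ι : Type*} (w h : ι → ℝ) (A : ℝ) (hA : 3 ≤ A)
    (hw : ∀ i, 0 < w i ∧ w i ≤ 1) (hh : ∀ i, 0 < h i ∧ h i ≤ 1)
    (i0 : ι) (hi0 : w i0 = 1) (hsum : HasSum (fun i => w i * h i) A) :
    ∃ p : ι → ℝ × ℝ, ∀ x ∈ Set.Icc (0:ℝ) 1, ∀ y ∈ Set.Icc (0:ℝ) 1,
        ∃ i, x ∈ Set.Icc (p i).1 ((p i).1 + w i) ∧ y ∈ Set.Icc (p i).2 ((p i).2 + h i) := by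
  classical
  set b := h i0 with hb
  have hb0 : 0 < b := (hh i0).1
  rcases (hh i0).2.lt_or_eq with hlt | heq
  · -- a finite set of rectangles with large total area
    have hpos : (3 - b : ℝ) < A := by linarith
    obtain ⟨s, hs⟩ := (hsum.eventually_const_lt hpos).exists
    have hs2 : 3 - b < ∑ i ∈ insert i0 s, w i * h i := by
      refine hs.trans_le (Finset.sum_le_sum_of_subset_of_nonneg (Finset.subset_insert _ _) ?_)
      intro j _ _
      exact (mul_pos (hw j).1 (hh j).1).le
    have hs3 : ∑ i ∈ (insert i0 s).erase i0, w i * h i + w i0 * h i0 =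
        ∑ i ∈ insert i0 s, w i * h i := Finset.sum_erase_add _ _ (Finset.mem_insert_self _ _)
    rw [hi0, one_mul, ← hb] at hs3
    have hbound : 1 * ((1 - b) - 0) + 1 * ((1 - b) + 1) ≤
        ∑ i ∈ (insert i0 s).erase i0, w i * h i := by linarith
    obtain ⟨p, hp⟩ := columns w h (1 - b) (by linarith) (fun i => ⟨(hh i).1.le, (hh i).2⟩)
      (fun i => (hw i).1.le) _ ((insert i0 s).erase i0) rfl 1 0 1 0 (fun i _ => (hw i).2) le_rfl
      (by linarith) zero_le_one one_pos hbound
    refine ⟨fun i => if i = i0 then (0, 0) else ((p i).1, (p i).2 + b), ?_⟩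
    intro x hx y hy
    by_cases hyb : y ≤ b
    · refine ⟨i0, ?_, ?_⟩
      · simp only [if_true, hi0, zero_add]
        exact hx
      · simp only [if_true, zero_add]
        exact ⟨hy.1, hyb⟩
    · push Not at hyb
      rcases hp x (by simpa using hx) (y - b) ⟨by linarith, by linarith [hy.2]⟩ with
        ⟨h1, _⟩ | ⟨j, hj, hxj, hyj⟩
      · linarith
      · have hji : j ≠ i0 := Finset.ne_of_mem_erase hj
        refine ⟨j, ?_, ?_⟩
        · simp only [hji, if_false]
          exact hxj
        · simp only [hji, if_false]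
          exact ⟨by linarith [hyj.1], by linarith [hyj.2]⟩
  · refine ⟨fun _ => (0, 0), ?_⟩
    intro x hx y hy
    refine ⟨i0, ?_, ?_⟩
    · simp only [hi0, zero_add]
      exact hx
    · simp only [zero_add]
      rw [heq]
      exact hy

/-- Every finite or infinite family of rectangles `w i × h i` with sides in `(0, 1]`, in which
some side is equal to `1`, and with total area at least `3`, covers the unit square by
translates. -/
theorem result {ι : Type*} (w h : ι → ℝ) (A : ℝ) (hA : 3 ≤ A)
    (hw : ∀ i, 0 < w i ∧ w i ≤ 1) (hh : ∀ i, 0 < h i ∧ h i ≤ 1)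
    (hone : ∃ i, w i = 1 ∨ h i = 1) (hsum : HasSum (fun i => w i * h i) A) :
    ∃ p : ι → ℝ × ℝ, Set.Icc (0:ℝ) 1 ×ˢ Set.Icc (0:ℝ) 1 ⊆
      ⋃ i, Set.Icc (p i).1 ((p i).1 + w i) ×ˢ Set.Icc (p i).2 ((p i).2 + h i) := by
  obtain ⟨i0, hi0 | hi0⟩ := hone
  · obtain ⟨p, hp⟩ := of_width w h A hA hw hh i0 hi0 hsum
    refine ⟨p, ?_⟩
    rintro ⟨x, y⟩ ⟨hx, hy⟩
    obtain ⟨i, h1, h2⟩ := hp x hx y hy
    exact Set.mem_iUnion.mpr ⟨i, h1, h2⟩
  · obtain ⟨p, hp⟩ := of_width h w A hA hh hw i0 hi0 (by simpa only [mul_comm] using hsum)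
    refine ⟨fun i => ((p i).2, (p i).1), ?_⟩
    rintro ⟨x, y⟩ ⟨hx, hy⟩
    obtain ⟨i, h1, h2⟩ := hp y hy x hx
    exact Set.mem_iUnion.mpr ⟨i, h2, h1⟩

end Pool.Agent.Results.MP_6800d9_co.CoverSquare
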